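import Pool.Agent.Helper28.PC.Count

/-!
# The class function counting `p`-elements in centralizers is not always a character

For a finite group `G` and a prime `p` let `Ψ(x)` be the number of `p`-elements of the centralizer
of `x` if `x` is `p`-regular, and `0` otherwise. We show that for `p = 2` and a certain solvable
group `G` of order `23328 = 2^5 3^6`, `Ψ` is not a character.

The group is `V ⋊ (SL(2,3) × C4)`, where `V` is the extraspecial group of order `3^5` and exponent
three attached to the symplectic space `W = N ⊗ M` over the field with three elements (`N` the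
natural module of `SL(2,3)`, `M` the anisotropic quadratic plane), and where a generator of `C4`
acts on `M` by the similitude `j = !![1, 1; 1, -1]` of multiplier `-1` (so it inverts the centre
of `V`). The subgroup `T = V ⋊ SL(2,3)` has an irreducible (Weil) character `τ` of degree `9`, with
value `-3` on the elements of order three of `SL(2,3)`, and the restriction of `Ψ` to `T` has
negative inner product with `τ`.
-/

namespace Pool.Agent.Results.MP_68e5bf_al.NotCharacter

/-- `y` is a `p`-element: its order is a power of `p`. -/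
def IsPElement (p : ℕ) {G : Type} [Group G] (y : G) : Prop := ∃ k : ℕ, orderOf y = p ^ k

open Classical in
/-- The class function `Ψ_{p,G}`: the number of `p`-elements commuting with `x` if the order of `x`
is coprime to `p`, and `0` otherwise. -/
noncomputable def Psi (p : ℕ) (G : Type) [Group G] (x : G) : ℕ :=
  if (orderOf x).Coprime p then Nat.card {y : G // y * x = x * y ∧ IsPElement p y} else 0

/-- `f` is a character of `G`: the trace function of a representation of `G` on a
finite-dimensional complex vector space. -/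
def IsCharacter (G : Type) [Group G] (f : G → ℂ) : Prop :=
  ∃ (n : ℕ) (ρ : Representation ℂ G (Fin n → ℂ)),
    ∀ g : G, LinearMap.trace ℂ (Fin n → ℂ) (ρ g) = f g

open Pool.Agent.Helper28.PC

/-- The bound for the contribution of an element. -/
def rr (w : W) (h : S) (k : C4) : ℤ :=
  if mu k = -1 then
    (if h = 1 ∨ h = negS then -15 else if h * h = negS ∧ w + act h k w = 0 then 9 else 0)
  else 0

lemma sum_rr : ∑ h : S, ∑ k : C4, ∑ w : W, rr w h k = -3888 := by
  decide +kernel

lemma sum_rr' : ∑ y : G, rr y.w y.h y.k = -11664 := by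
  rw [← Equiv.sum_comp G.equivProd]
  have h1 : ∑ p : W × F × S × C4, rr (G.equivProd p).w (G.equivProd p).h (G.equivProd p).k
      = ∑ w : W, ∑ _z : F, ∑ h : S, ∑ k : C4, rr w h k := by
    simp only [Fintype.sum_prod_type]
    rfl
  rw [h1]
  have h2 : ∑ w : W, ∑ _z : F, ∑ h : S, ∑ k : C4, rr w h k
      = 3 * ∑ w : W, ∑ h : S, ∑ k : C4, rr w h k := by
    rw [Finset.mul_sum]
    refine Finset.sum_congr rfl fun w _ => ?_
    rw [Finset.sum_const, Finset.card_univ, ZMod.card, nsmul_eq_mul]
    rfl
  rw [h2, Finset.sum_comm]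
  have h3 : ∑ h : S, ∑ w : W, ∑ k : C4, rr w h k = ∑ h : S, ∑ k : C4, ∑ w : W, rr w h k :=
    Finset.sum_congr rfl fun h _ => Finset.sum_comm
  rw [h3, sum_rr]
  norm_num

/-- The projection to `SL(2,3)`. -/
def projH : G →* S where
  toFun x := x.h
  map_one' := rfl
  map_mul' _ _ := rfl

lemma two_elt_S : ∀ σ : S, σ ^ 8 = 1 → σ = 1 ∨ σ = negS ∨ σ * σ = negS := by decide +kernel

lemma pow24 (σ : S) : σ ^ 24 = 1 := by
  have := pow_card_eq_one (x := σ)
  rwa [S.card_S] at this

lemma h_of_two_elt (y : G) (hy : IsPElement 2 y) : y.h = 1 ∨ y.h = negS ∨ y.h * y.h = negS := by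
  obtain ⟨k, hk⟩ := hy
  apply two_elt_S
  have h1 : y ^ (2 ^ k) = 1 := by rw [← hk]; exact pow_orderOf_eq_one y
  have h2 : y.h ^ (2 ^ k) = 1 := by
    have := congrArg projH h1
    rwa [map_pow, map_one] at this
  have h3 : orderOf y.h ∣ 2 ^ k := orderOf_dvd_of_pow_eq_one h2
  have h4 : orderOf y.h ∣ 24 := orderOf_dvd_of_pow_eq_one (pow24 _)
  obtain ⟨j, -, hj⟩ := (Nat.dvd_prime_pow Nat.prime_two).mp h3
  apply orderOf_dvd_iff_pow_eq_one.mp
  rw [hj] at h4 ⊢
  have h5 : (2 ^ j).Coprime 3 := Nat.Coprime.pow_left _ (by norm_num)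
  exact h5.dvd_of_dvd_mul_right (by simpa using h4)

lemma w_of_two_elt (y : G) (hy : IsPElement 2 y) (hk : mu y.k = -1) (hh : y.h * y.h = negS) :
    y.w + act y.h y.k y.w = 0 := by
  obtain ⟨k, hk'⟩ := hy
  have h1 : y ^ (2 ^ k) = 1 := by rw [← hk']; exact pow_orderOf_eq_one y
  have h2 : (y * y) ^ (2 ^ k) = 1 := by
    rw [← pow_two, ← pow_mul, mul_comm, pow_mul, h1, one_pow]
  have hid : ∀ w : W, act (y * y).h (y * y).k w = w := by
    have h3 : ∀ k : C4, mu k = -1 → ∀ w : W, act negS (k * k) w = w := by decide +kernel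
    intro w
    rw [G.mul_h, G.mul_k, hh]
    exact h3 _ hk w
  have h3 : ∀ n : ℕ, ((y * y) ^ n).w = n • (y * y).w := by
    intro n
    induction n with
    | zero => simp
    | succ n ih => rw [pow_succ', G.mul_w, hid, ih, succ_nsmul']
  have h4 := h3 (2 ^ k)
  rw [h2, G.one_w] at h4
  have h5 : ∀ w : W, 3 • w = 0 := by decide +kernel
  have h6 : addOrderOf (y * y).w ∣ 2 ^ k := addOrderOf_dvd_of_nsmul_eq_zero h4.symm
  have h7 : addOrderOf (y * y).w ∣ 3 := addOrderOf_dvd_of_nsmul_eq_zero (h5 _)
  have h8 : (2 ^ k).Coprime 3 := Nat.Coprime.pow_left _ (by norm_num)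
  have h9 : addOrderOf (y * y).w = 1 := Nat.eq_one_of_dvd_coprimes h8 h6 h7
  have := AddMonoid.addOrderOf_eq_one_iff.mp h9
  rwa [G.mul_w] at this

lemma base_pow : ∀ σ : S, (σ = 1 ∨ σ = negS) → ∀ k : C4, (⟨0, 0, σ, k⟩ : G) ^ 4 = 1 := by
  decide +kernel

lemma two_elt_scalar (σ : S) (k : C4) (hk : mu k = -1) (hσ : σ = 1 ∨ σ = negS) (w : W) (z : F) :
    IsPElement 2 (⟨w, z, σ, k⟩ : G) := by
  obtain ⟨g, hg⟩ := conj_base σ k hk hσ w z
  have h1 : orderOf (⟨w, z, σ, k⟩ : G) ∣ 2 ^ 2 := by
    apply orderOf_dvd_of_pow_eq_one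
    rw [hg, conj_pow]
    have := base_pow σ hσ k
    norm_num
    rw [this]
  obtain ⟨j, -, hj⟩ := (Nat.dvd_prime_pow Nat.prime_two).mp h1
  exact ⟨j, hj⟩

lemma mu_cases : ∀ k : C4, mu k = 1 ∨ mu k = -1 := by decide +kernel

open Classical in
lemma contribution (y : G) :
    (if IsPElement 2 y then Phi y else 0 : ℂ).re ≤ (rr y.w y.h y.k : ℝ) := by
  obtain ⟨w, z, h, k⟩ := y
  rcases mu_cases k with hk | hk
  · have h1 : (1 : F) ≠ -1 := by decide
    have h2 : rr w h k = 0 := by
      unfold rr
      rw [if_neg (by rw [hk]; exact h1)]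
    change _ ≤ ((rr w h k : ℤ) : ℝ)
    rw [h2]
    split_ifs
    · rw [Phi_even _ hk]; simp
    · simp
  · change _ ≤ ((rr w h k : ℤ) : ℝ)
    unfold rr
    rw [if_pos hk]
    by_cases hσ : h = 1 ∨ h = negS
    · rw [if_pos hσ, if_pos (two_elt_scalar h k hk hσ w z), Phi_scalar h k hk hσ]
      simp
    · rw [if_neg hσ]
      by_cases hy : IsPElement 2 (⟨w, z, h, k⟩ : G)
      · rw [if_pos hy]
        have h1 : h * h = negS := by
          rcases h_of_two_elt _ hy with e | e | e
          · exact absurd (Or.inl e) hσ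
          · exact absurd (Or.inr e) hσ
          · exact e
        have h2 : w + act h k w = 0 := w_of_two_elt _ hy hk h1
        rw [if_pos ⟨h1, h2⟩, Phi_four h k hk h1]
        simp
      · rw [if_neg hy]
        split_ifs <;> simp

lemma coprime_iff (t : T) :
    (orderOf (t : G)).Coprime 2 ↔ (t : G).h * (t : G).h * (t : G).h = 1 := by
  constructor
  · intro hc
    have h1 : orderOf (t : G).h ∣ orderOf (t : G) := orderOf_map_dvd projH (t : G)
    have h2 : (orderOf (t : G).h).Coprime 8 := by
      have := Nat.Coprime.coprime_dvd_left h1 hc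
      exact Nat.Coprime.pow_right 3 this
    have h3 : orderOf (t : G).h ∣ 8 * 3 := orderOf_dvd_of_pow_eq_one (pow24 _)
    have h4 : orderOf (t : G).h ∣ 3 := h2.dvd_of_dvd_mul_left h3
    have h5 := orderOf_dvd_iff_pow_eq_one.mp h4
    rw [← h5, pow_three']
  · intro h3
    have key : ∀ x : G, x.h = 1 → x.k = 1 → x * x * x = 1 := by
      intro x hh hk
      have e2 : ∀ w : W, w + w + w = 0 := by decide +kernel
      have e3 : (3 : F) = 0 := by decide
      refine G.ext ?_ ?_ ?_ ?_
      · simp only [G.mul_w, G.mul_h, G.mul_k, hh, hk, mul_one, act_one, G.one_w]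
        exact e2 _
      · simp only [G.mul_w, G.mul_z, G.mul_h, G.mul_k, hh, hk, mul_one, act_one, G.one_z,
          B_add_left, B_self, mu_one]
        linear_combination x.z * e3
      · simp only [G.mul_h, hh, mul_one, G.one_h]
      · simp only [G.mul_k, hk, mul_one, G.one_k]
    have h1 := key ((t : G) * (t : G) * (t : G)) h3 (by
      simp only [G.mul_k, T_k, mul_one])
    have h2 : (t : G) ^ 9 = 1 := by
      rw [← h1, ← pow_three', ← pow_three', ← pow_mul]
    have h4 : orderOf (t : G) ∣ 9 := orderOf_dvd_of_pow_eq_one h2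
    exact Nat.Coprime.coprime_dvd_left h4 (by norm_num)

open Classical in
lemma Psi_eq (t : T) : (Psi 2 G (t : G) : ℂ) = ∑ y : G,
    if IsPElement 2 y then (if ((t : G).h * (t : G).h * (t : G).h = 1 ∧ y * (t : G) = (t : G) * y)
      then 1 else 0) else 0 := by
  unfold Psi
  by_cases h : (t : G).h * (t : G).h * (t : G).h = 1
  · rw [if_pos ((coprime_iff t).mpr h), Nat.card_eq_fintype_card, Fintype.card_subtype,
      Finset.card_filter, Nat.cast_sum]
    refine Finset.sum_congr rfl fun y _ => ?_
    by_cases h1 : IsPElement 2 y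
    · by_cases h2 : y * (t : G) = (t : G) * y
      · rw [if_pos ⟨h2, h1⟩, if_pos h1, if_pos ⟨h, h2⟩, Nat.cast_one]
      · rw [if_neg (fun e => h2 e.1), if_pos h1, if_neg (fun e => h2 e.2), Nat.cast_zero]
    · rw [if_neg (fun e => h1 e.2), if_neg h1, Nat.cast_zero]
  · rw [if_neg (fun e => h ((coprime_iff t).mp e)), Nat.cast_zero]
    symm
    apply Finset.sum_eq_zero
    intro y _
    split_ifs with h1 h2
    · exact absurd h2.1 h
    · rfl
    · rfl

lemma sum_neg : (∑ t : T, (Psi 2 G (t : G) : ℂ) * chi t⁻¹).re ≤ -11664 := by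
  classical
  have e : ∑ t : T, (Psi 2 G (t : G) : ℂ) * chi t⁻¹
      = ∑ y : G, if IsPElement 2 y then Phi y else 0 := by
    calc ∑ t : T, (Psi 2 G (t : G) : ℂ) * chi t⁻¹
        = ∑ t : T, ∑ y : G, if IsPElement 2 y then
            (if ((t : G).h * (t : G).h * (t : G).h = 1 ∧ y * (t : G) = (t : G) * y)
              then chi t⁻¹ else 0) else 0 := by
          refine Finset.sum_congr rfl fun t _ => ?_
          rw [Psi_eq, Finset.sum_mul]
          refine Finset.sum_congr rfl fun y _ => ?_
          split_ifs <;> simp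
      _ = ∑ y : G, ∑ t : T, if IsPElement 2 y then
            (if ((t : G).h * (t : G).h * (t : G).h = 1 ∧ y * (t : G) = (t : G) * y)
              then chi t⁻¹ else 0) else 0 := Finset.sum_comm
      _ = _ := by
          refine Finset.sum_congr rfl fun y _ => ?_
          split_ifs
          · rfl
          · exact Finset.sum_const_zero
  rw [e, Complex.re_sum]
  calc ∑ y : G, (if IsPElement 2 y then Phi y else 0 : ℂ).re
      ≤ ∑ y : G, (rr y.w y.h y.k : ℝ) := Finset.sum_le_sum fun y _ => contribution y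
    _ = ((∑ y : G, rr y.w y.h y.k : ℤ) : ℝ) := by push_cast; rfl
    _ = -11664 := by rw [sum_rr']; norm_num

/-- There are a finite group `G` (of order `23328`) and a prime `p` (namely `2`) such that
`Ψ_{p,G}` is not a character of `G`. -/
theorem result : ∃ (G : Type) (_ : Group G) (p : ℕ), Nat.card G = 23328 ∧ p = 2 ∧ p.Prime ∧
    ¬ IsCharacter G (fun x => (Psi p G x : ℂ)) := by
  refine ⟨G, inferInstance, 2, ?_, rfl, Nat.prime_two, ?_⟩
  · rw [Nat.card_eq_fintype_card, G.card_G]
  · rintro ⟨n, ρ, hρ⟩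
    let σ : Representation ℂ T (Fin n → ℂ) := ρ.comp T.subtype
    have hσ : ∀ t : T, σ.character t = (Psi 2 G (t : G) : ℂ) := fun t => hρ (t : G)
    have : Invertible (Nat.card T : ℂ) := invertibleOfNonzero (by
      rw [Nat.card_eq_fintype_card]
      exact_mod_cast Fintype.card_ne_zero)
    have h1 := Representation.card_inv_mul_sum_char_mul_char_eq_finrank tauR σ
    have h2 : ∑ g : T, σ.character g * tauR.character g⁻¹
        = ∑ t : T, (Psi 2 G (t : G) : ℂ) * chi t⁻¹ :=
      Finset.sum_congr rfl fun t _ => by rw [hσ, tauR_character]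
    rw [h2] at h1
    have h3 := sum_neg
    set s := ∑ t : T, (Psi 2 G (t : G) : ℂ) * chi t⁻¹
    have h4 : (Nat.card T : ℂ) ≠ 0 := by
      rw [Nat.card_eq_fintype_card]
      exact_mod_cast Fintype.card_ne_zero
    have h5 : s = (Nat.card T : ℂ) * (Module.finrank ℂ (tauR.IntertwiningMap σ) : ℂ) := by
      rw [← h1]
      field_simp
    have h6 : s.re = (Nat.card T : ℝ) * (Module.finrank ℂ (tauR.IntertwiningMap σ) : ℝ) := by
      rw [h5, ← Nat.cast_mul]
      rw [Complex.natCast_re]
      push_cast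
      rfl
    have h7 : (0 : ℝ) ≤ s.re := by
      rw [h6]; exact mul_nonneg (Nat.cast_nonneg _) (Nat.cast_nonneg _)
    linarith

end Pool.Agent.Results.MP_68e5bf_al.NotCharacter
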